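import Mathlib

set_option autoImplicit false

namespace Pool.Agent.Results.MP_550572_gt.Counter

/-- an `n`-braid projection, read from top to bottom: the list of its crossings, the crossing `i`
exchanging the strands in the positions `i` and `i + 1` -/
abbrev Braid (n : ℕ) := List {i : ℕ // i + 1 < n}

/-- the exchange of the positions `i` and `i + 1` -/
def sw {n : ℕ} (i : {i : ℕ // i + 1 < n}) : Equiv.Perm (Fin n) :=
  Equiv.swap ⟨i.1, Nat.lt_of_succ_lt i.2⟩ ⟨i.1 + 1, i.2⟩

/-- positions of the strands at the bottom, starting from the positions `σ` -/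
def final {n : ℕ} : Braid n → Equiv.Perm (Fin n) → Equiv.Perm (Fin n)
  | [], σ => σ
  | i :: B, σ => final B (sw i * σ)

/-- number of crossings of the strands `a` and `b`, starting from the positions `σ` -/
def cn {n : ℕ} : Braid n → Equiv.Perm (Fin n) → Fin n → Fin n → ℕ
  | [], _, _, _ => 0
  | i :: B, σ, a, b =>
    (if ((σ a : ℕ) = i.1 ∧ (σ b : ℕ) = i.1 + 1) ∨ ((σ a : ℕ) = i.1 + 1 ∧ (σ b : ℕ) = i.1) then 1
      else 0) + cn B (sw i * σ) a b

/-- every strand ends in its starting position -/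
def Pure {n : ℕ} (B : Braid n) : Prop := final B 1 = 1

/-- the CN matrix -/
def N {n : ℕ} (B : Braid n) : Matrix (Fin n) (Fin n) ℕ := fun a b => cn B 1 a b

/-- the condition T0 -/
def T0 {n : ℕ} (M : Matrix (Fin n) (Fin n) ℕ) : Prop :=
  (∀ i, M i i = 0) ∧ ∀ i j k, i < j → j < k → M i j = 0 → M j k = 0 → M i k = 0

theorem par {n : ℕ} {a b : Fin n} (hab : a ≠ b) (B : Braid n) : ∀ σ : Equiv.Perm (Fin n),
    (final B σ b < final B σ a ↔ (σ b < σ a ↔ cn B σ a b % 2 = 0)) := by
  induction B with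
  | nil => simp [final, cn]
  | cons i B ih =>
    intro σ
    rw [final, cn, ih]
    have h : (σ a : ℕ) ≠ σ b := fun h => hab (σ.injective (Fin.ext h))
    simp only [sw, Equiv.Perm.mul_apply, Equiv.swap_apply_def, Fin.ext_iff, Fin.lt_def]
    generalize cn B _ a b = c
    split_ifs <;> (try simp only []) <;> omega

theorem step {n : ℕ} (a b : Fin n) (B : Braid n) : ∀ (σ : Equiv.Perm (Fin n)) (t : ℕ),
    cn (B.take t) σ a b ≤ cn (B.take (t + 1)) σ a b ∧
      cn (B.take (t + 1)) σ a b ≤ cn (B.take t) σ a b + 1 := by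
  induction B with
  | nil => simp [cn]
  | cons i B ih =>
    intro σ t
    cases t with
    | zero => simp only [List.take, cn]; split_ifs <;> omega
    | succ t => have := ih (sw i * σ) t; simp only [List.take_succ_cons, cn]; omega

theorem mono {n : ℕ} (a b : Fin n) (B : Braid n) : Monotone fun t => cn (B.take t) 1 a b :=
  monotone_nat_of_le_succ fun t => (step a b B 1 t).1

theorem le_all {n : ℕ} (a b : Fin n) (B : Braid n) (t : ℕ) : cn (B.take t) 1 a b ≤ N B a b := by
  have := mono a b B (le_max_left t B.length)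
  simp only [List.take_of_length_le (le_max_right t B.length)] at this
  exact this

theorem inv_iff {n : ℕ} {a b : Fin n} (hab : a < b) (B : Braid n) (t : ℕ) :
    final (B.take t) 1 b < final (B.take t) 1 a ↔ cn (B.take t) 1 a b % 2 = 1 := by
  rw [par hab.ne]
  simp [hab.not_gt]

def M0 : Matrix (Fin 10) (Fin 10) ℕ :=
  !![0, 2, 2, 2, 2, 0, 2, 2, 0, 2;
    2, 0, 2, 2, 2, 0, 0, 2, 2, 2;
    2, 2, 0, 2, 2, 2, 0, 0, 2, 2;
    2, 2, 2, 0, 2, 0, 2, 0, 0, 2;
    2, 2, 2, 2, 0, 0, 0, 2, 0, 0;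
    0, 0, 2, 0, 0, 0, 2, 2, 2, 2;
    2, 0, 0, 2, 0, 2, 0, 2, 2, 2;
    2, 2, 0, 0, 2, 2, 2, 0, 2, 2;
    0, 2, 2, 0, 0, 2, 2, 2, 0, 2;
    2, 2, 2, 2, 0, 2, 2, 2, 2, 0]

theorem result : ∃ (n : ℕ) (M : Matrix (Fin n) (Fin n) ℕ), 1 ≤ n ∧ M.IsSymm ∧ (∀ i j, Even (M i j)) ∧
    T0 M ∧ ¬ ∃ B : Braid n, Pure B ∧ N B = M := by
  refine ⟨10, M0, by norm_num, by unfold Matrix.IsSymm; decide, by decide, by unfold T0; decide +kernel, ?_⟩
  rintro ⟨B, -, hB⟩
  have hR : ∀ a b : Fin 10, a < b → M0 a b = 0 → ∀ t, final (B.take t) 1 a < final (B.take t) 1 b := by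
    intro a b hab h t
    have h1 := le_all a b B t
    have h2 := inv_iff hab B t
    rw [hB, h] at h1
    exact lt_of_le_of_ne (not_lt.1 fun h => by have := h2.1 h; omega)
      fun h => hab.ne ((final _ 1).injective h)
  have hQ : ∀ a b : Fin 10, a < b → M0 a b = 2 → ∃ t, final (B.take t) 1 b < final (B.take t) 1 a := by
    intro a b hab h
    by_contra hc
    push Not at hc
    have h1 : ∀ t, cn (B.take t) 1 a b = 0 := fun t => by
      induction t with
      | zero => simp [cn]
      | succ t ih =>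
        have := step a b B 1 t
        have := (inv_iff hab B (t + 1)).not.1 (hc _).not_gt
        omega
    have h2 := h1 B.length
    rw [List.take_length] at h2
    have : N B a b = 0 := h2
    rw [hB] at this; omega
  have hC : ∀ a b : Fin 10, (a < b ∧ M0 a b = 2) → ∀ x y f,
      final (B.take x) 1 b < final (B.take x) 1 a → final (B.take y) 1 b < final (B.take y) 1 a →
      final (B.take f) 1 a < final (B.take f) 1 b → (f < x ∧ f < y) ∨ (x < f ∧ y < f) := by
    intro a b ⟨hab, h⟩ x y f hx hy hf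
    have e1 := (inv_iff hab B x).1 hx
    have e2 := (inv_iff hab B y).1 hy
    have e3 := (inv_iff hab B f).not.1 hf.not_gt
    have l1 := le_all a b B x
    have l2 := le_all a b B y
    rw [hB, h] at l1 l2
    by_contra hc
    rcases (by omega : (x ≤ f ∧ f ≤ y) ∨ (y ≤ f ∧ f ≤ x)) with ⟨p, q⟩ | ⟨p, q⟩ <;>
    · have := mono a b B p
      have := mono a b B q
      simp only at *
      omega
  obtain ⟨t0, h0⟩ := hQ 0 6 (by decide) (by decide)
  obtain ⟨t1, h1⟩ := hQ 0 7 (by decide) (by decide)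
  obtain ⟨t2, h2⟩ := hQ 1 7 (by decide) (by decide)
  obtain ⟨t3, h3⟩ := hQ 1 8 (by decide) (by decide)
  obtain ⟨t4, h4⟩ := hQ 2 5 (by decide) (by decide)
  obtain ⟨t5, h5⟩ := hQ 2 8 (by decide) (by decide)
  obtain ⟨t6, h6⟩ := hQ 2 9 (by decide) (by decide)
  obtain ⟨t7, h7⟩ := hQ 3 6 (by decide) (by decide)
  obtain ⟨t8, h8⟩ := hQ 3 9 (by decide) (by decide)
  obtain ⟨t9, h9⟩ := hQ 4 7 (by decide) (by decide)
  have c0 := hC 0 2 (by decide) t0 t1 t4
    (lt_trans (hR 2 6 (by decide) (by decide) _) h0)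
    (lt_trans (hR 2 7 (by decide) (by decide) _) h1)
    (lt_trans (hR 0 5 (by decide) (by decide) _) h4)
  have c1 := hC 5 6 (by decide) t0 t7 t4
    (lt_trans h0 (hR 0 5 (by decide) (by decide) _))
    (lt_trans h7 (hR 3 5 (by decide) (by decide) _))
    (lt_trans h4 (hR 2 6 (by decide) (by decide) _))
  have c2 := hC 5 7 (by decide) t1 t9 t4
    (lt_trans h1 (hR 0 5 (by decide) (by decide) _))
    (lt_trans h9 (hR 4 5 (by decide) (by decide) _))
    (lt_trans h4 (hR 2 7 (by decide) (by decide) _))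
  have c3 := hC 1 3 (by decide) t2 t3 t7
    (lt_trans (hR 3 7 (by decide) (by decide) _) h2)
    (lt_trans (hR 3 8 (by decide) (by decide) _) h3)
    (lt_trans (hR 1 6 (by decide) (by decide) _) h7)
  have c4 := hC 6 7 (by decide) t2 t9 t7
    (lt_trans h2 (hR 1 6 (by decide) (by decide) _))
    (lt_trans h9 (hR 4 6 (by decide) (by decide) _))
    (lt_trans h7 (hR 3 7 (by decide) (by decide) _))
  have c5 := hC 6 8 (by decide) t3 t5 t7
    (lt_trans h3 (hR 1 6 (by decide) (by decide) _))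
    (lt_trans h5 (hR 2 6 (by decide) (by decide) _))
    (lt_trans h7 (hR 3 8 (by decide) (by decide) _))
  have c6 := hC 2 3 (by decide) t4 t5 t7
    (lt_trans (hR 3 5 (by decide) (by decide) _) h4)
    (lt_trans (hR 3 8 (by decide) (by decide) _) h5)
    (lt_trans (hR 2 6 (by decide) (by decide) _) h7)
  have c7 := hC 2 4 (by decide) t4 t6 t9
    (lt_trans (hR 4 5 (by decide) (by decide) _) h4)
    (lt_trans (hR 4 9 (by decide) (by decide) _) h6)
    (lt_trans (hR 2 7 (by decide) (by decide) _) h9)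
  have c8 := hC 7 9 (by decide) t6 t8 t9
    (lt_trans h6 (hR 2 7 (by decide) (by decide) _))
    (lt_trans h8 (hR 3 7 (by decide) (by decide) _))
    (lt_trans h9 (hR 4 9 (by decide) (by decide) _))
  have c9 := hC 3 4 (by decide) t7 t8 t9
    (lt_trans (hR 4 6 (by decide) (by decide) _) h7)
    (lt_trans (hR 4 9 (by decide) (by decide) _) h8)
    (lt_trans (hR 3 7 (by decide) (by decide) _) h9)
  omega

end Pool.Agent.Results.MP_550572_gt.Counter
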